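import Pool.Agent.W716.FV.StmA

/-! FV-GF (helper716): elementary facts on good functions. -/

set_option autoImplicit false

open MeasureTheory Filter Topology

namespace Pool.Agent.W688.FV.GF

open Pool.Agent.W716.FV

variable {n : ℕ} {R : ℝ} {u : E n → ℝ}

lemma lipw (hR : 0 ≤ R) (hu : Good R u) : LipschitzWith (Real.toNNReal R) u := by
  refine LipschitzWith.of_dist_le_mul fun x y => ?_
  rw [Real.dist_eq, dist_eq_norm, Real.coe_toNNReal R hR]
  exact hu.lip x y

lemma u_zero (hu : Good R u) : u 0 = 0 := by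
  have := hu.hom 0 0 le_rfl
  rw [zero_smul, zero_mul] at this
  exact this

lemma abs_le (hu : Good R u) (x : E n) : |u x| ≤ R * ‖x‖ := by
  have := hu.lip x 0
  rwa [u_zero hu, sub_zero, sub_zero] at this

lemma gr_norm (hR : 0 ≤ R) (hu : Good R u) (x : E n) : ‖gr u x‖ ≤ R := by
  unfold gr
  rw [LinearIsometryEquiv.norm_map]
  have := norm_fderiv_le_of_lipschitz ℝ (x₀ := x) (lipw hR hu)
  rwa [Real.coe_toNNReal R hR] at this

lemma gr_meas : Measurable (gr u) := by
  unfold gr
  exact ((InnerProductSpace.toDual ℝ (E n)).symm.continuous).measurable.comp (measurable_fderiv ℝ u)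

lemma euler (hu : Good R u) (x : E n) (hd : DifferentiableAt ℝ u x) :
    inner ℝ (gr u x) x = u x := by
  unfold gr
  rw [InnerProductSpace.toDual_symm_apply]
  have h1 : HasDerivAt (fun t : ℝ => u (x + t • x)) (fderiv ℝ u x x) 0 :=
    hd.hasFDerivAt.hasLineDerivAt x
  have h2 : HasDerivAt (fun t : ℝ => (1 + t) * u x) (u x) 0 := by
    have := ((hasDerivAt_id (0 : ℝ)).const_add 1).mul_const (u x)
    rw [one_mul] at this
    exact this
  have h3 : (fun t : ℝ => u (x + t • x)) =ᶠ[𝓝 0] fun t : ℝ => (1 + t) * u x := by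
    filter_upwards [lt_mem_nhds (show (-1 : ℝ) < 0 by norm_num)] with t ht
    have : x + t • x = (1 + t) • x := by rw [add_smul, one_smul]
    rw [this, hu.hom _ _ (by linarith)]
  exact h1.unique (h2.congr_of_eventuallyEq h3)

lemma ae_tr (hR : 0 ≤ R) (hu : Good R u) (c : E n) :
    ∀ᵐ x ∂(gam n), DifferentiableAt ℝ u (x + c) := by
  have h1 : ∀ᵐ x ∂(volume : Measure (E n)), DifferentiableAt ℝ u x := (lipw hR hu).ae_differentiableAt
  have h2 : ∀ᵐ x ∂(volume : Measure (E n)), DifferentiableAt ℝ u (x + c) :=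
    (measurePreserving_add_right (volume : Measure (E n)) c).quasiMeasurePreserving.ae h1
  exact (withDensity_absolutelyContinuous _ _).ae_le h2

lemma xi_cont (η : E n) : Continuous (xi η) := by
  unfold xi
  fun_prop

lemma ae_xi (hR : 0 ≤ R) (hu : Good R u) (η : E n) :
    ∀ᵐ w ∂(P n), DifferentiableAt ℝ u (xi η w) := by
  have hm : MeasurableSet {w : E n × ℝ | DifferentiableAt ℝ u (xi η w)} :=
    (xi_cont η).measurable (measurableSet_of_differentiableAt ℝ u)
  have : SFinite (gam n) := by unfold gam; infer_instance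
  have : SFinite nu := by unfold nu; infer_instance
  have h1 : ∀ᵐ w ∂((gam n).prod nu), w ∈ {w : E n × ℝ | DifferentiableAt ℝ u (xi η w)} := by
    rw [Measure.ae_prod_mem_iff_ae_ae_mem hm]
    have h2 := Measure.ae_ae_comm (μ := gam n) (ν := nu)
      (p := fun x κ => DifferentiableAt ℝ u (xi η (x, κ))) hm
    apply h2.mpr
    refine Eventually.of_forall fun κ => ?_
    exact ae_tr hR hu (κ • η)
  exact h1

theorem main : GoodFacts := fun _ _ _ hR hu =>
  ⟨gr_norm hR hu, abs_le hu, gr_meas, euler hu, ae_tr hR hu, ae_xi hR hu⟩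

end Pool.Agent.W688.FV.GF
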