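import Pool.Agent.W716.FV.StmA

/-! FV-TD (helper716): derivative of `T`, continuity of `S`. -/

set_option autoImplicit false

open MeasureTheory Filter Topology

namespace Pool.Agent.W688.FV.TD

open Pool.Agent.W716.FV

variable {n : ℕ} {R : ℝ} {u : E n → ℝ}

lemma lipw (hR : 0 ≤ R) (hu : Good R u) : LipschitzWith (Real.toNNReal R) u := by
  refine LipschitzWith.of_dist_le_mul fun x y => ?_
  rw [Real.dist_eq, dist_eq_norm, Real.coe_toNNReal R hR]
  exact hu.lip x y

lemma xi_cont (η : E n) : Continuous (xi η) := by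
  unfold xi
  fun_prop

lemma xi_norm (η : E n) (w : E n × ℝ) : ‖xi η w‖ ≤ ‖w.1‖ + |w.2| * ‖η‖ := by
  unfold xi
  refine (norm_add_le _ _).trans ?_
  rw [norm_smul, Real.norm_eq_abs]

lemma xi_sub (η η' : E n) (w : E n × ℝ) : ‖xi η w - xi η' w‖ = |w.2| * ‖η - η'‖ := by
  unfold xi
  rw [add_sub_add_left_eq_sub, ← smul_sub, norm_smul, Real.norm_eq_abs]

lemma deriv_at (hd : ∀ x, |u x| ≤ R * ‖x‖) (hPM : PMoments) (hR : 0 ≤ R) (hu : Good R u)
    (η : E n) (hae : ∀ᵐ w ∂(P n), DifferentiableAt ℝ u (xi η w)) :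
    HasFDerivAt (TT u) (AA u η - ContinuousLinearMap.id ℝ (E n)) η := by
  obtain ⟨hP, hmom, -⟩ := hPM n
  have hcu : Continuous u := (lipw hR hu).continuous
  have hm2 : AEStronglyMeasurable
      (fun w : E n × ℝ => w.2 • (fderiv ℝ u (xi η w)).smulRight w.1) (P n) := by
    have h1 : StronglyMeasurable fun w : E n × ℝ => fderiv ℝ u (xi η w) :=
      ((measurable_fderiv ℝ u).comp (xi_cont η).measurable).stronglyMeasurable
    have h2 : StronglyMeasurable fun w : E n × ℝ => w.1 := continuous_fst.stronglyMeasurable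
    have h3 : Continuous fun a : (E n →L[ℝ] ℝ) × E n => a.1.smulRight a.2 := by
      have := (ContinuousLinearMap.smulRightL ℝ (E n) (E n)).continuous₂
      exact this
    have h4 : StronglyMeasurable fun w : E n × ℝ => w.2 := continuous_snd.stronglyMeasurable
    exact (h4.smul (h3.comp_stronglyMeasurable (h1.prodMk h2))).aestronglyMeasurable
  have hint := hasFDerivAt_integral_of_dominated_loc_of_lip (μ := P n) (x₀ := η)
    (s := Set.univ) (F := fun q (w : E n × ℝ) => u (xi q w) • w.1)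
    (F' := fun w : E n × ℝ => w.2 • (fderiv ℝ u (xi η w)).smulRight w.1)
    (bound := fun w => R * (|w.2| ^ 1 * ‖w.1‖ ^ 1))
    univ_mem
    (by
      refine Eventually.of_forall fun q => ?_
      exact ((hcu.comp (xi_cont q)).smul continuous_fst).aestronglyMeasurable)
    (by
      have h1 := (hmom 0 2 (by norm_num)).const_mul R
      have h2 := (hmom 1 1 (by norm_num)).const_mul (R * ‖η‖)
      refine (h1.add h2).mono' ((hcu.comp (xi_cont η)).smul continuous_fst).aestronglyMeasurable ?_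
      refine Eventually.of_forall fun w => ?_
      simp only [Pi.add_apply]
      rw [norm_smul, Real.norm_eq_abs]
      have e1 := hd (xi η w)
      have e2 := xi_norm η w
      calc |u (xi η w)| * ‖w.1‖ ≤ (R * (‖w.1‖ + |w.2| * ‖η‖)) * ‖w.1‖ := by
            gcongr
            exact e1.trans (mul_le_mul_of_nonneg_left e2 hR)
        _ = R * (|w.2| ^ 0 * ‖w.1‖ ^ 2) + R * ‖η‖ * (|w.2| ^ 1 * ‖w.1‖ ^ 1) := by ring)
    hm2
    (by
      refine Eventually.of_forall fun w => ?_
      refine LipschitzOnWith.of_dist_le_mul fun y _ z _ => ?_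
      rw [dist_eq_norm, dist_eq_norm, ← sub_smul, norm_smul, Real.norm_eq_abs]
      have e1 := hu.lip (xi y w) (xi z w)
      rw [xi_sub] at e1
      have e2 : 0 ≤ R * (|w.2| ^ 1 * ‖w.1‖ ^ 1) := by positivity
      simp only [Real.coe_nnabs, abs_of_nonneg e2]
      calc |u (xi y w) - u (xi z w)| * ‖w.1‖ ≤ (R * (|w.2| * ‖y - z‖)) * ‖w.1‖ := by gcongr
        _ = R * (|w.2| ^ 1 * ‖w.1‖ ^ 1) * ‖y - z‖ := by ring)
    ((hmom 1 1 (by norm_num)).const_mul R)
    (by
      filter_upwards [hae] with w hw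
      have h1 : HasFDerivAt (fun q : E n => xi q w) (w.2 • ContinuousLinearMap.id ℝ (E n)) η := by
        unfold xi
        exact ((hasFDerivAt_id η).const_smul w.2).const_add w.1
      have h2 : HasFDerivAt (fun q : E n => u (xi q w))
          ((fderiv ℝ u (xi η w)).comp (w.2 • ContinuousLinearMap.id ℝ (E n))) η :=
        HasFDerivAt.comp η hw.hasFDerivAt h1
      have h3 := h2.smul_const w.1
      have h4 : ((fderiv ℝ u (xi η w)).comp (w.2 • ContinuousLinearMap.id ℝ (E n))).smulRight w.1 =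
          w.2 • (fderiv ℝ u (xi η w)).smulRight w.1 := by
        ext1 v
        simp [smul_smul]
      rw [h4] at h3
      exact h3)
  exact hint.2.sub (hasFDerivAt_id η)

lemma int_kappa (hd : ∀ x, |u x| ≤ R * ‖x‖) (hPM : PMoments) (hR : 0 ≤ R) (hu : Good R u)
    (η : E n) : Integrable (fun w : E n × ℝ => w.2 * u (xi η w)) (P n) := by
  obtain ⟨hP, hmom, -⟩ := hPM n
  have hcu : Continuous u := (lipw hR hu).continuous
  have h1 := (hmom 1 1 (by norm_num)).const_mul R
  have h2 := (hmom 2 0 (by norm_num)).const_mul (R * ‖η‖)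
  refine (h1.add h2).mono' (continuous_snd.mul (hcu.comp (xi_cont η))).aestronglyMeasurable ?_
  refine Eventually.of_forall fun w => ?_
  simp only [Pi.add_apply]
  rw [norm_mul, Real.norm_eq_abs, Real.norm_eq_abs]
  have e1 := hd (xi η w)
  have e2 := xi_norm η w
  calc |w.2| * |u (xi η w)| ≤ |w.2| * (R * (‖w.1‖ + |w.2| * ‖η‖)) := by
        gcongr
        exact e1.trans (mul_le_mul_of_nonneg_left e2 hR)
    _ = R * (|w.2| ^ 1 * ‖w.1‖ ^ 1) + R * ‖η‖ * (|w.2| ^ 2 * ‖w.1‖ ^ 0) := by ring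

lemma ss_cont (hd : ∀ x, |u x| ≤ R * ‖x‖) (hPM : PMoments) (hR : 0 ≤ R) (hu : Good R u) :
    Continuous (SS R u) := by
  obtain ⟨hP, hmom, -, -, hk2, -⟩ := hPM n
  have hL : LipschitzWith (Real.toNNReal (R * (1 / 3)))
      (fun η : E n => ∫ w, w.2 * u (xi η w) ∂(P n)) := by
    refine LipschitzWith.of_dist_le_mul fun y z => ?_
    rw [Real.dist_eq, dist_eq_norm, Real.coe_toNNReal _ (by positivity),
      ← integral_sub (int_kappa hd hPM hR hu y) (int_kappa hd hPM hR hu z)]
    have h1 : Integrable (fun w : E n × ℝ => R * ‖y - z‖ * w.2 ^ 2) (P n) := by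
      have := (hmom 2 0 (by norm_num)).const_mul (R * ‖y - z‖)
      simpa using this
    calc |∫ w, (w.2 * u (xi y w) - w.2 * u (xi z w)) ∂(P n)|
        ≤ ∫ w, R * ‖y - z‖ * w.2 ^ 2 ∂(P n) := by
          rw [← Real.norm_eq_abs]
          refine norm_integral_le_of_norm_le h1 (Eventually.of_forall fun w => ?_)
          rw [← mul_sub, norm_mul, Real.norm_eq_abs, Real.norm_eq_abs]
          have e1 := hu.lip (xi y w) (xi z w)
          rw [xi_sub] at e1
          calc |w.2| * |u (xi y w) - u (xi z w)| ≤ |w.2| * (R * (|w.2| * ‖y - z‖)) := by gcongr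
            _ = R * ‖y - z‖ * |w.2| ^ 2 := by ring
            _ = R * ‖y - z‖ * w.2 ^ 2 := by rw [sq_abs]
      _ = R * (1 / 3) * ‖y - z‖ := by
          rw [integral_const_mul, hk2]; ring
  unfold SS
  have := hL.continuous
  fun_prop

theorem main (hPM : PMoments) (hGF : GoodFacts) : TDeriv := by
  intro n R u hR hu
  obtain ⟨-, h2, -, -, -, h6⟩ := hGF n R u hR hu
  exact ⟨fun η => deriv_at h2 hPM hR hu η (h6 η), ss_cont h2 hPM hR hu⟩

end Pool.Agent.W688.FV.TD
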